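import Mathlib
import Pool.Agent.Lib.MP_2ec175_al.Main

set_option autoImplicit false

namespace Pool.Agent.Results.MP_2ec175_al.LinearAverage

open Turing

/-- A finite multi-stack machine with input alphabet `α` and accepting states. -/
structure Machine (α : Type) where
  K : Type
  [decK : DecidableEq K]
  [finK : Fintype K]
  Γ : K → Type
  [finΓ : ∀ k, Fintype (Γ k)]
  Λ : Type
  [inhΛ : Inhabited Λ]
  [finΛ : Fintype Λ]
  σ : Type
  [inhσ : Inhabited σ]
  [finσ : Fintype σ]
  prog : Λ → TM2.Stmt Γ Λ σ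
  inp : K
  enc : α → Γ inp
  enc_inj : Function.Injective enc
  acc : σ → Bool

attribute [instance] Machine.decK Machine.inhΛ Machine.inhσ

/-- The configuration after `t` steps on input `w` (`none` after the halting step). -/
def Machine.run {α : Type} (M : Machine α) (w : List α) (t : ℕ) :
    Option (TM2.Cfg M.Γ M.Λ M.σ) :=
  (fun d => d.bind (TM2.step M.prog))^[t] (some (TM2.init M.inp (w.map M.enc)))

/-- On input `w` the machine is halted after `t` steps, and accepts exactly when `P` holds. -/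
def Machine.HaltsWith {α : Type} (M : Machine α) (w : List α) (t : ℕ) (P : Prop) : Prop :=
  ∃ c, M.run w t = some c ∧ c.l = none ∧ (M.acc c.var = true ↔ P)

/-- Every finitely generated metabelian group has a word problem algorithm of linear average time,
for every finite generating family. -/
theorem result (G : Type) [Group G] (hG : derivedSeries G 2 = ⊥) (m : ℕ) (x : Fin m → G)
    (hx : Subgroup.closure (Set.range x) = ⊤) :
    ∃ (M : Machine (Fin m × Bool)) (T : List (Fin m × Bool) → ℕ),
      (∀ w, M.HaltsWith w (T w)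
        ((w.map fun a => if a.2 then x a.1 else (x a.1)⁻¹).prod = 1)) ∧
      (fun n : ℕ => (∑ v : Fin n → Fin m × Bool, (T (List.ofFn v) : ℝ)) /
        Fintype.card (Fin n → Fin m × Bool)) =O[Filter.atTop] fun n : ℕ => (n : ℝ) := by
  obtain ⟨cost, C, ⟨K, i1, i2, Γ, i3, Λ, i4, i5, σ, i6, i7, M, k0, enc, acc, T, h1, h2, h3⟩, hC⟩ :=
    Pool.Agent.Lib.MP_2ec175_al.main G hG m x hx
  refine ⟨⟨K, Γ, Λ, σ, M, k0, enc, h1, acc⟩, T, fun w => ?_, ?_⟩
  · obtain ⟨c, e1, e2, e3⟩ := (h2 w).1
    refine ⟨c, e1, e2, e3.trans ?_⟩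
    simp only [FreeGroup.lift_mk]
    have : (fun a : Fin m × Bool => cond a.2 (x a.1) (x a.1)⁻¹) =
        fun a => if a.2 then x a.1 else (x a.1)⁻¹ := by
      funext a; rcases a with ⟨i, b⟩; cases b <;> simp
    rw [this]
  · refine Asymptotics.IsBigO.of_bound (2 * C) ?_
    filter_upwards [Filter.eventually_ge_atTop 1] with n hn
    have hcard : Fintype.card (Fin n → Fin m × Bool) = (2 * m) ^ n := by
      simp [mul_comm]
    have hsum : ∑ v : Fin n → Fin m × Bool, T (List.ofFn v) ≤ C * (n + 1) * (2 * m) ^ n :=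
      (Finset.sum_le_sum fun v _ => h3 _).trans (hC n)
    have hR : (∑ v : Fin n → Fin m × Bool, (T (List.ofFn v) : ℝ)) ≤
        C * (n + 1) * (((2 * m) ^ n : ℕ) : ℝ) := by exact_mod_cast hsum
    have hn' : (1 : ℝ) ≤ n := by exact_mod_cast hn
    have hC0 : (0 : ℝ) ≤ C := Nat.cast_nonneg C
    rw [hcard, Real.norm_of_nonneg (by positivity), Real.norm_of_nonneg (by positivity)]
    calc _ ≤ (C : ℝ) * (n + 1) := div_le_of_le_mul₀ (by positivity) (by positivity) hR
      _ ≤ 2 * C * n := by nlinarith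

end Pool.Agent.Results.MP_2ec175_al.LinearAverage
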