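import Mathlib
import Pool.Agent.Lib.MP_2ec175_al.Nb3

set_option autoImplicit false

namespace Pool.Agent.Results.MP_2ec175_al.ReducedWords

open Turing

/-- A finite multi-stack machine with input alphabet `α` and accepting states. -/
structure Machine (α : Type) where
  K : Type
  [decK : DecidableEq K]
  [finK : Fintype K]
  Γ : K → Type
  [finΓ : ∀ k, Fintype (Γ k)]
  Λ : Type
  [inhΛ : Inhabited Λ]
  [finΛ : Fintype Λ]
  σ : Type
  [inhσ : Inhabited σ]
  [finσ : Fintype σ]
  prog : Λ → TM2.Stmt Γ Λ σ
  inp : K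
  enc : α → Γ inp
  enc_inj : Function.Injective enc
  acc : σ → Bool

attribute [instance] Machine.decK Machine.inhΛ Machine.inhσ

/-- The configuration after `t` steps on input `w` (`none` after the halting step). -/
def Machine.run {α : Type} (M : Machine α) (w : List α) (t : ℕ) :
    Option (TM2.Cfg M.Γ M.Λ M.σ) :=
  (fun d => d.bind (TM2.step M.prog))^[t] (some (TM2.init M.inp (w.map M.enc)))

/-- On input `w` the machine is halted after `t` steps, and accepts exactly when `P` holds. -/
def Machine.HaltsWith {α : Type} (M : Machine α) (w : List α) (t : ℕ) (P : Prop) : Prop :=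
  ∃ c, M.run w t = some c ∧ c.l = none ∧ (M.acc c.var = true ↔ P)

open Classical in
/-- Every finitely generated metabelian group has, for every finite generating family, a word
problem algorithm whose average time over the freely reduced words of length `n` is linear. -/
theorem result (G : Type) [Group G] (hG : derivedSeries G 2 = ⊥) (m : ℕ) (x : Fin m → G)
    (hx : Subgroup.closure (Set.range x) = ⊤) :
    ∃ (M : Machine (Fin m × Bool)) (T : List (Fin m × Bool) → ℕ),
      (∀ w, M.HaltsWith w (T w)
        ((w.map fun a => if a.2 then x a.1 else (x a.1)⁻¹).prod = 1)) ∧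
      (fun n : ℕ =>
        (∑ v ∈ Finset.univ.filter
            (fun v : Fin n → Fin m × Bool => FreeGroup.IsReduced (List.ofFn v)),
          (T (List.ofFn v) : ℝ)) /
        (Finset.univ.filter
            (fun v : Fin n → Fin m × Bool => FreeGroup.IsReduced (List.ofFn v))).card)
        =O[Filter.atTop] fun n : ℕ => (n : ℝ) := by
  obtain ⟨cost, C, ⟨K, i1, i2, Γ, i3, Λ, i4, i5, σ, i6, i7, M, k0, enc, acc, T, h1, h2, h3⟩, hC⟩ :=
    Pool.Agent.Lib.MP_2ec175_al.mainR G hG m x hx
  refine ⟨⟨K, Γ, Λ, σ, M, k0, enc, h1, acc⟩, T, fun w => ?_, ?_⟩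
  · obtain ⟨c, e1, e2, e3⟩ := (h2 w).1
    refine ⟨c, e1, e2, e3.trans ?_⟩
    simp only [FreeGroup.lift_mk]
    have : (fun a : Fin m × Bool => cond a.2 (x a.1) (x a.1)⁻¹) =
        fun a => if a.2 then x a.1 else (x a.1)⁻¹ := by
      funext a; rcases a with ⟨i, b⟩; cases b <;> simp
    rw [this]
  · refine Asymptotics.IsBigO.of_bound (2 * |C|) ?_
    filter_upwards [Filter.eventually_ge_atTop 1] with n hn
    have hE : ∀ Φ : List (Fin m × Bool) → ℝ,
        Pool.Agent.Lib.MP_2ec175_al.EP FreeGroup.IsReduced n Φ = ∑ v ∈ Finset.univ.filter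
          (fun v : Fin n → Fin m × Bool => FreeGroup.IsReduced (List.ofFn v)), Φ (List.ofFn v) := by
      intro Φ
      rw [Finset.sum_filter]
      unfold Pool.Agent.Lib.MP_2ec175_al.EP Pool.Agent.Lib.MP_2ec175_al.EW
      exact Finset.sum_congr rfl fun v _ => by congr
    have h4 := hC n
    rw [hE, hE, Finset.sum_const, nsmul_eq_mul, mul_one] at h4
    generalize (Finset.univ.filter
      (fun v : Fin n → Fin m × Bool => FreeGroup.IsReduced (List.ofFn v))) = R at h4 ⊢
    have h5 : ∑ v ∈ R, (T (List.ofFn v) : ℝ) ≤ |C| * (n + 1) * R.card := by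
      refine (Finset.sum_le_sum fun v _ => ?_).trans (h4.trans ?_)
      · exact_mod_cast h3 _
      · rw [mul_assoc]
        exact mul_le_mul_of_nonneg_right (le_abs_self C) (by positivity)
    have hn' : (1 : ℝ) ≤ n := by exact_mod_cast hn
    have hC0 : (0 : ℝ) ≤ |C| := abs_nonneg C
    rw [Real.norm_of_nonneg (by positivity), Real.norm_of_nonneg (by positivity)]
    calc _ ≤ |C| * (n + 1) := div_le_of_le_mul₀ (by positivity) (by positivity) h5
      _ ≤ 2 * |C| * n := by nlinarith

end Pool.Agent.Results.MP_2ec175_al.ReducedWords
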